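import Pool.Agent.Run7.h568.DG.CIface

/-!
Piece C_eig (closed surfaces, helper568's project DG, MP_00a7c6_gt), part A: the assembly from
the positivity facts.  Author: helper559.
-/

set_option autoImplicit false

open Real Matrix
open Run7.h568.DG

noncomputable section

namespace Run7.h559.DG

theorem m00 (g h : SL) : (g * h).1 0 0 = g.1 0 0 * h.1 0 0 + g.1 0 1 * h.1 1 0 := by
  rw [Matrix.SpecialLinearGroup.coe_mul, Matrix.mul_apply, Fin.sum_univ_two]

theorem m01 (g h : SL) : (g * h).1 0 1 = g.1 0 0 * h.1 0 1 + g.1 0 1 * h.1 1 1 := by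
  rw [Matrix.SpecialLinearGroup.coe_mul, Matrix.mul_apply, Fin.sum_univ_two]

theorem m10 (g h : SL) : (g * h).1 1 0 = g.1 1 0 * h.1 0 0 + g.1 1 1 * h.1 1 0 := by
  rw [Matrix.SpecialLinearGroup.coe_mul, Matrix.mul_apply, Fin.sum_univ_two]

theorem m11 (g h : SL) : (g * h).1 1 1 = g.1 1 0 * h.1 0 1 + g.1 1 1 * h.1 1 1 := by
  rw [Matrix.SpecialLinearGroup.coe_mul, Matrix.mul_apply, Fin.sum_univ_two]

theorem det1 (g : SL) : g.1 0 0 * g.1 1 1 - g.1 0 1 * g.1 1 0 = 1 := by
  have := g.2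
  rw [Matrix.det_fin_two] at this
  exact this

theorem i00 (g : SL) : (g⁻¹).1 0 0 = g.1 1 1 := by
  rw [Matrix.SpecialLinearGroup.coe_inv, Matrix.adjugate_fin_two]; rfl

theorem i01 (g : SL) : (g⁻¹).1 0 1 = -g.1 0 1 := by
  rw [Matrix.SpecialLinearGroup.coe_inv, Matrix.adjugate_fin_two]; rfl

theorem i10 (g : SL) : (g⁻¹).1 1 0 = -g.1 1 0 := by
  rw [Matrix.SpecialLinearGroup.coe_inv, Matrix.adjugate_fin_two]; rfl

theorem i11 (g : SL) : (g⁻¹).1 1 1 = g.1 0 0 := by
  rw [Matrix.SpecialLinearGroup.coe_inv, Matrix.adjugate_fin_two]; rfl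

theorem act_mul {g h : SL} {s s' s'' r r' : ℝ} (h1 : Act g s' s'' r) (h2 : Act h s s' r') :
    Act (g * h) s s'' (r * r') := by
  obtain ⟨a1, a2⟩ := h1
  obtain ⟨b1, b2⟩ := h2
  constructor
  · rw [m00, m01]
    linear_combination g.1 0 0 * b1 + g.1 0 1 * b2 + r' * a1
  · rw [m10, m11]
    linear_combination g.1 1 0 * b1 + g.1 1 1 * b2 + r' * a2

theorem act_inv {g : SL} {s s' r : ℝ} (h : Act g s s' r) (hr : r ≠ 0) : Act g⁻¹ s' s r⁻¹ := by
  obtain ⟨a1, a2⟩ := h
  have hd := det1 g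
  constructor
  · rw [i00, i01]
    apply mul_left_cancel₀ hr
    have e : r * -(r⁻¹ * s) = -s := by
      field_simp
    rw [e]
    linear_combination (-g.1 1 1) * a1 + g.1 0 1 * a2 - s * hd
  · rw [i10, i11]
    apply mul_left_cancel₀ hr
    rw [mul_inv_cancel₀ hr]
    linear_combination g.1 1 0 * a1 + hd - g.1 0 0 * a2

theorem act_mob {g : SL} (h01 : g.1 0 1 = 0) {s : ℝ}
    (hb : 0 < g.1 0 0 + g.1 1 0 * s) : Act g (PTD.mob g s) s (g.1 0 0 + g.1 1 0 * s)⁻¹ := by
  have hd := det1 g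
  rw [h01, zero_mul, sub_zero] at hd
  have h00 : g.1 0 0 ≠ 0 := by
    intro h
    rw [h, zero_mul] at hd
    exact zero_ne_one hd
  have h11 : g.1 1 1 = (g.1 0 0)⁻¹ := by
    field_simp
    linarith
  have hb' := hb.ne'
  constructor
  · rw [h01]
    unfold PTD.mob
    field_simp
    ring
  · rw [h11]
    unfold PTD.mob
    field_simp
    ring

/-- the eigenvalue -/
theorem kap_facts {T : ℝ} (hT : 2 < T) : 1 < (T + √(T ^ 2 - 4)) / 2 ∧
    (T + √(T ^ 2 - 4)) / 2 + ((T + √(T ^ 2 - 4)) / 2)⁻¹ = T := by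
  have h0 : 0 ≤ T ^ 2 - 4 := by nlinarith
  have h1 := Real.sq_sqrt h0
  have h2 := Real.sqrt_nonneg (T ^ 2 - 4)
  have h3 : 1 < (T + √(T ^ 2 - 4)) / 2 := by linarith
  refine ⟨h3, ?_⟩
  have h4 : (T + √(T ^ 2 - 4)) / 2 ≠ 0 := by linarith
  have h5 : ((T + √(T ^ 2 - 4)) / 2)⁻¹ = (T - √(T ^ 2 - 4)) / 2 := by
    refine (eq_inv_of_mul_eq_one_left ?_).symm
    linear_combination (-1 / 4) * h1
  rw [h5]
  ring

theorem sep {M : SL} {κ : ℝ} (hκ : 1 < κ) (hk : κ + κ⁻¹ = tr M) :
    (M.1 0 0 - κ⁻¹) * (M.1 1 1 - κ⁻¹) = M.1 0 1 * M.1 1 0 := by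
  have hd := det1 M
  have h0 : κ ≠ 0 := by linarith
  have h1 : κ * κ⁻¹ = 1 := mul_inv_cancel₀ h0
  unfold tr at hk
  linear_combination hd + κ⁻¹ * hk - h1

theorem act_eig {M : SL} {κ : ℝ} (hκ : 1 < κ) (hk : κ + κ⁻¹ = tr M)
    (hne : M.1 0 0 - κ⁻¹ ≠ 0) :
    Act M (M.1 0 1 / (M.1 0 0 - κ⁻¹)) (M.1 0 1 / (M.1 0 0 - κ⁻¹)) κ⁻¹ := by
  have hs := sep hκ hk
  constructor
  · have e : M.1 0 1 = M.1 0 1 / (M.1 0 0 - κ⁻¹) * (M.1 0 0 - κ⁻¹) := by
      rw [div_mul_cancel₀ _ hne]
    linear_combination e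
  · have e : M.1 1 1 - κ⁻¹ = M.1 1 0 * (M.1 0 1 / (M.1 0 0 - κ⁻¹)) := by
      rw [mul_div_assoc', eq_div_iff hne]
      linear_combination hs
    linear_combination e

/-! ### rotation -/

variable {D : Type} [Fintype D] [DecidableEq D] {T : Tri D}

theorem rho_inj (T : Tri D) : Function.Injective T.rho := by
  intro a b h
  unfold Tri.rho at h
  exact T.sg.injective (T.sg.injective (T.io.injective h))

theorem per_pos (T : Tri D) (d : D) : 0 < Function.minimalPeriod T.rho d :=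
  Function.minimalPeriod_pos_of_mem_periodicPts ((rho_inj T).mem_periodicPts d)

theorem io_rho (T : Tri D) (d : D) : T.io (T.rho d) = T.sg (T.sg d) := by
  unfold Tri.rho
  exact T.io_io _

theorem turns_zero (x : D → ℝ) (d : D) : Portal.turns (T := T) x d 0 = 1 := rfl

theorem turns_succ' (x : D → ℝ) (d : D) (j : ℕ) : Portal.turns (T := T) x d (j + 1) =
    step false (x (T.sg (T.sg d))) * Portal.turns (T := T) x (T.rho d) j := rfl

theorem turns_succ (x : D → ℝ) (j : ℕ) : ∀ d : D, Portal.turns (T := T) x d (j + 1) =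
    Portal.turns (T := T) x d j * step false (x (T.sg (T.sg (T.rho^[j] d)))) := by
  induction j with
  | zero =>
    intro d
    rw [turns_succ', turns_zero, turns_zero, mul_one, one_mul]
    rfl
  | succ j ih =>
    intro d
    rw [turns_succ', ih, turns_succ' x d j, mul_assoc, Function.iterate_succ_apply]

/-! ### the values of xi -/

variable {P : Portal T} (t : PTD P) (p : (D → ℝ) × ℝ)

theorem xi_u {j : ℕ} (hj : j < Function.minimalPeriod T.rho P.u) :
    t.xi p (T.rho^[j] P.u) = PTD.mob (Portal.turns (T := T) p.1 P.u j) (t.xiu p) := by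
  classical
  have hex : ∃ i, T.rho^[i] P.u = T.rho^[j] P.u := ⟨j, rfl⟩
  have hfind : Nat.find hex = j := by
    have h1 : Nat.find hex ≤ j := Nat.find_min' hex rfl
    have h2 := Nat.find_spec hex
    exact (Function.iterate_eq_iterate_iff_of_lt_minimalPeriod (lt_of_le_of_lt h1 hj) hj).1 h2
  unfold PTD.xi
  rw [dif_pos hex]
  congr 2

theorem not_u {i j : ℕ} : T.rho^[i] P.u ≠ T.rho^[j] P.v := by
  intro h
  have hn := per_pos T P.v
  obtain ⟨k, hk⟩ : ∃ k, (k + j) % Function.minimalPeriod T.rho P.v = 0 := by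
    refine ⟨Function.minimalPeriod T.rho P.v * j - j, ?_⟩
    have : j ≤ Function.minimalPeriod T.rho P.v * j := Nat.le_mul_of_pos_left j hn
    rw [Nat.sub_add_cancel this]
    exact Nat.mul_mod_right _ _
  apply P.huv (k + i)
  rw [Function.iterate_add_apply, h, ← Function.iterate_add_apply,
    ← Function.iterate_mod_minimalPeriod_eq, hk]
  rfl

theorem xi_v {j : ℕ} (hj : j < Function.minimalPeriod T.rho P.v) :
    t.xi p (T.rho^[j] P.v) = PTD.mob (Portal.turns (T := T) p.1 P.v j) (t.xiv p) := by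
  classical
  have hno : ¬ ∃ i, T.rho^[i] P.u = T.rho^[j] P.v := fun ⟨i, hi⟩ => not_u hi
  have hex : ∃ i, T.rho^[i] P.v = T.rho^[j] P.v := ⟨j, rfl⟩
  have hfind : Nat.find hex = j := by
    have h1 : Nat.find hex ≤ j := Nat.find_min' hex rfl
    have h2 := Nat.find_spec hex
    exact (Function.iterate_eq_iterate_iff_of_lt_minimalPeriod (lt_of_le_of_lt h1 hj) hj).1 h2
  unfold PTD.xi
  rw [dif_neg hno, dif_pos hex]
  congr 2

theorem xi_0 {d : D} (hu : ∀ j, T.rho^[j] d ≠ P.u) (hv : ∀ j, T.rho^[j] d ≠ P.v) :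
    t.xi p d = 0 := by
  have key : ∀ e : D, (∀ j, T.rho^[j] d ≠ e) → ¬ ∃ i, T.rho^[i] e = d := by
    rintro e he ⟨i, rfl⟩
    have hn := per_pos T e
    obtain ⟨k, hk⟩ : ∃ k, (k + i) % Function.minimalPeriod T.rho e = 0 := by
      refine ⟨Function.minimalPeriod T.rho e * i - i, ?_⟩
      have : i ≤ Function.minimalPeriod T.rho e * i := Nat.le_mul_of_pos_left i hn
      rw [Nat.sub_add_cancel this]
      exact Nat.mul_mod_right _ _
    apply he k
    rw [← Function.iterate_add_apply, ← Function.iterate_mod_minimalPeriod_eq, hk]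
    rfl
  unfold PTD.xi
  rw [dif_neg (key _ hu), dif_neg (key _ hv)]

/-- trichotomy for darts -/
theorem tri_cases (P : Portal T) (d : D) :
    (∃ j < Function.minimalPeriod T.rho P.u, d = T.rho^[j] P.u) ∨
    (∃ j < Function.minimalPeriod T.rho P.v, d = T.rho^[j] P.v) ∨
    ((∀ j, T.rho^[j] d ≠ P.u) ∧ ∀ j, T.rho^[j] d ≠ P.v) := by
  have key : ∀ e : D, (∃ j, T.rho^[j] d = e) →
      ∃ j < Function.minimalPeriod T.rho e, d = T.rho^[j] e := by
    rintro e ⟨j, rfl⟩
    have hn := per_pos T d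
    obtain ⟨k, hk⟩ : ∃ k, (k + j) % Function.minimalPeriod T.rho d = 0 := by
      refine ⟨Function.minimalPeriod T.rho d * j - j, ?_⟩
      have : j ≤ Function.minimalPeriod T.rho d * j := Nat.le_mul_of_pos_left j hn
      rw [Nat.sub_add_cancel this]
      exact Nat.mul_mod_right _ _
    have h1 : T.rho^[k] (T.rho^[j] d) = d := by
      rw [← Function.iterate_add_apply, ← Function.iterate_mod_minimalPeriod_eq, hk]
      rfl
    refine ⟨k % Function.minimalPeriod T.rho (T.rho^[j] d), Nat.mod_lt _ (per_pos T _), ?_⟩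
    rw [Function.iterate_mod_minimalPeriod_eq, h1]
  by_cases h1 : ∃ j, T.rho^[j] d = P.u
  · exact Or.inl (key _ h1)
  by_cases h2 : ∃ j, T.rho^[j] d = P.v
  · exact Or.inr (Or.inl (key _ h2))
  · push Not at h1 h2
    exact Or.inr (Or.inr ⟨h1, h2⟩)

/-- the positivity facts -/
def Gd (σ : ℝ → Prop) : Prop :=
  2 < tr (t.Mp p) ∧ (t.Mp p).1 0 0 - (t.kap p)⁻¹ ≠ 0 ∧
  0 < (Portal.rot (T := T) p.1 P.u * P.J p).1 0 0 +
    (Portal.rot (T := T) p.1 P.u * P.J p).1 1 0 * t.xiu p ∧
  (∀ j < Function.minimalPeriod T.rho P.u, 0 < (Portal.turns (T := T) p.1 P.u j).1 0 0 +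
    (Portal.turns (T := T) p.1 P.u j).1 1 0 * t.xiu p ∧
    -1 < PTD.mob (Portal.turns (T := T) p.1 P.u j) (t.xiu p) ∧
    σ (PTD.mob (Portal.turns (T := T) p.1 P.u j) (t.xiu p))) ∧
  (∀ j < Function.minimalPeriod T.rho P.v, 0 < (Portal.turns (T := T) p.1 P.v j).1 0 0 +
    (Portal.turns (T := T) p.1 P.v j).1 1 0 * t.xiv p ∧
    -1 < PTD.mob (Portal.turns (T := T) p.1 P.v j) (t.xiv p) ∧
    σ (PTD.mob (Portal.turns (T := T) p.1 P.v j) (t.xiv p)))

theorem xi_sgn {σ : ℝ → Prop} (hσ : σ 0) (h : Gd t p σ) (d : D) :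
    -1 < t.xi p d ∧ σ (t.xi p d) := by
  obtain ⟨-, -, -, h1, h2⟩ := h
  rcases tri_cases P d with ⟨j, hj, rfl⟩ | ⟨j, hj, rfl⟩ | ⟨hu, hv⟩
  · rw [xi_u t p hj]
    exact (h1 j hj).2
  · rw [xi_v t p hj]
    exact (h2 j hj).2
  · rw [xi_0 t p hu hv]
    exact ⟨by norm_num, hσ⟩

theorem mob_one (s : ℝ) : PTD.mob 1 s = s := by
  unfold PTD.mob
  have h1 : (1 : SL).1 0 0 = 1 := rfl
  have h2 : (1 : SL).1 1 0 = 0 := rfl
  rw [h1, h2]
  simp

theorem xi_P_u : t.xi p P.u = t.xiu p := by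
  have := xi_u t p (P := P) (j := 0) (per_pos T P.u)
  rw [turns_zero, mob_one] at this
  exact this

theorem xi_P_v : t.xi p P.v = t.xiv p := by
  have := xi_v t p (P := P) (j := 0) (per_pos T P.v)
  rw [turns_zero, mob_one] at this
  exact this

theorem assembly (hJ : C_J) (hR : C_R) (hp : p ∈ P.Teich) {σ : ℝ → Prop} (h : Gd t p σ) :
    1 < t.kap p ∧ 0 < t.om p ∧
    Act (t.Mp p) (t.xi p P.u) (t.xi p P.u) (t.kap p)⁻¹ ∧
    Act (t.RJ p) (t.xi p P.v) (t.xi p P.u) (t.om p) ∧
    (∀ d, ∃ r, 0 < r ∧ Act (t.Rs p d * t.Rs p (T.sg d) * t.Ri p (T.sg (T.sg d)))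
      (t.xi p (T.rho d)) (t.xi p d) r) ∧
    (∀ d, d ≠ T.io P.u → d ≠ T.io P.v →
      t.xi p (T.io d) * exp (-(p.1 d)) * (1 + t.xi p (T.sg d)) = t.xi p (T.sg d)) := by
  obtain ⟨htr, hne, hD1, hD2, hD3⟩ := h
  obtain ⟨hj1, -, hj3, -, -⟩ := hJ T P p hp
  obtain ⟨-, -, hr3, hr4, hr5⟩ := hR T P t p hp.1
  obtain ⟨hκ1, hκ2⟩ := kap_facts htr
  have hκ : 1 < t.kap p := hκ1
  have hκ0 : 0 < t.kap p := by linarith
  have hk : t.kap p + (t.kap p)⁻¹ = tr (t.Mp p) := hκ2
  have hom : 0 < t.om p := div_pos hκ0 hD1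
  have aM : Act (t.Mp p) (t.xiu p) (t.xiu p) (t.kap p)⁻¹ := act_eig hκ hk hne
  have rJ01 : (Portal.rot (T := T) p.1 P.u * P.J p).1 0 1 = 0 := by
    rw [m01]
    have h1 : (Portal.rot (T := T) p.1 P.u).1 0 1 = 0 := (hj1 _ _).1
    have h2 : (P.J p).1 0 1 = 0 := rfl
    rw [h1, h2]
    ring
  have aJ : Act (Portal.rot (T := T) p.1 P.u * P.J p) (t.xiv p) (t.xiu p) _ := act_mob rJ01 hD1
  have aMi : Act (t.Mp p)⁻¹ (t.xiu p) (t.xiu p) (t.kap p) := by
    have := act_inv aM (inv_ne_zero hκ0.ne')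
    rwa [inv_inv] at this
  have eRJ : t.RJ p = (t.Mp p)⁻¹ * (Portal.rot (T := T) p.1 P.u * P.J p) := by
    unfold PTD.RJ PTD.Mp
    group
  have aR : Act (t.RJ p) (t.xiv p) (t.xiu p) (t.om p) := by
    rw [eRJ]
    have := act_mul aMi aJ
    unfold PTD.om
    rw [div_eq_mul_inv]
    exact this
  have aRi := act_inv aR hom.ne'
  have erot : Portal.rot (T := T) p.1 P.v * (t.B p)⁻¹ =
      (t.RJ p)⁻¹ * ((t.Mp p)⁻¹ * t.RJ p) := by
    have e1 : Portal.rot (T := T) p.1 P.v =
        (P.J p)⁻¹ * (Portal.rot (T := T) p.1 P.u)⁻¹ * P.J p := by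
      have := congrArg (fun g => g⁻¹) hj3
      simp only [_root_.mul_inv_rev, inv_inv] at this
      rw [this]
      group
    rw [e1]
    unfold PTD.RJ PTD.Mp
    group
  have aV : Act (Portal.rot (T := T) p.1 P.v * (t.B p)⁻¹) (t.xiv p) (t.xiv p) (t.kap p) := by
    rw [erot]
    have := act_mul aRi (act_mul aMi aR)
    have e : (t.om p)⁻¹ * (t.kap p * t.om p) = t.kap p := by
      have := hom.ne'
      field_simp
    rwa [e] at this
  have hrel : ∀ d, ∃ r, 0 < r ∧ Act (t.Rs p d * t.Rs p (T.sg d) * t.Ri p (T.sg (T.sg d)))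
      (t.xi p (T.rho d)) (t.xi p d) r := by
    intro d
    have hspec : ∀ e, T.rho d ≠ e → T.sg (T.sg d) ≠ T.io e := by
      intro e he h1
      apply he
      apply T.io.injective
      rw [io_rho, h1]
    rcases tri_cases P d with ⟨j, hj, rfl⟩ | ⟨j, hj, rfl⟩ | ⟨hu, hv⟩
    · have b1 := (hD2 j hj).1
      have a1 := act_mob (hj1 P.u j).1 b1
      have a1i := act_inv a1 (inv_ne_zero b1.ne')
      rw [inv_inv] at a1i
      rw [xi_u t p hj]
      rw [← Function.iterate_succ_apply' T.rho]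
      by_cases hlast : j + 1 < Function.minimalPeriod T.rho P.u
      · have hsu : T.sg (T.sg (T.rho^[j] P.u)) ≠ T.io P.u := by
          apply hspec
          rw [← Function.iterate_succ_apply' T.rho]
          intro h1
          have h2 := (Function.iterate_eq_iterate_iff_of_lt_minimalPeriod hlast
            (per_pos T P.u)).1 h1
          omega
        have hsv : T.sg (T.sg (T.rho^[j] P.u)) ≠ T.io P.v := by
          apply hspec
          rw [← Function.iterate_succ_apply' T.rho]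
          exact P.huv _
        rw [hr3 _ hsu hsv, xi_u t p hlast]
        have b2 := (hD2 (j + 1) hlast).1
        have a2 := act_mob (hj1 P.u (j + 1)).1 b2
        have e : step false (p.1 (T.sg (T.sg (T.rho^[j] P.u)))) =
            (Portal.turns (T := T) p.1 P.u j)⁻¹ * Portal.turns (T := T) p.1 P.u (j + 1) := by
          rw [turns_succ]
          group
        rw [e]
        exact ⟨_, mul_pos b1 (inv_pos.2 b2), act_mul a1i a2⟩
      · have hj' : j + 1 = Function.minimalPeriod T.rho P.u := by omega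
        have hru : T.rho^[j + 1] P.u = P.u := by
          rw [hj']
          exact Function.isPeriodicPt_minimalPeriod _ _
        have hs : T.sg (T.sg (T.rho^[j] P.u)) = T.io P.u := by
          rw [← io_rho, ← Function.iterate_succ_apply' T.rho]
          rw [hru]
        rw [hr4 _ hs, hru, xi_P_u]
        have e : step false (p.1 (T.sg (T.sg (T.rho^[j] P.u)))) *
            (P.J p * t.B p * (P.J p)⁻¹) =
            (Portal.turns (T := T) p.1 P.u j)⁻¹ * t.Mp p := by
          have e1 : Portal.rot (T := T) p.1 P.u = Portal.turns (T := T) p.1 P.u (j + 1) := by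
            rw [hj']
            rfl
          unfold PTD.Mp
          rw [e1, turns_succ]
          group
        rw [e]
        exact ⟨_, mul_pos b1 (inv_pos.2 hκ0), act_mul a1i aM⟩
    · have b1 := (hD3 j hj).1
      have a1 := act_mob (hj1 P.v j).1 b1
      have a1i := act_inv a1 (inv_ne_zero b1.ne')
      rw [inv_inv] at a1i
      rw [xi_v t p hj]
      rw [← Function.iterate_succ_apply' T.rho]
      by_cases hlast : j + 1 < Function.minimalPeriod T.rho P.v
      · have hsv : T.sg (T.sg (T.rho^[j] P.v)) ≠ T.io P.v := by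
          apply hspec
          rw [← Function.iterate_succ_apply' T.rho]
          intro h1
          have h2 := (Function.iterate_eq_iterate_iff_of_lt_minimalPeriod hlast
            (per_pos T P.v)).1 h1
          omega
        have hsu : T.sg (T.sg (T.rho^[j] P.v)) ≠ T.io P.u := by
          apply hspec
          rw [← Function.iterate_succ_apply' T.rho]
          intro h1
          exact not_u (P := P) (i := 0) (j := j + 1) h1.symm
        rw [hr3 _ hsu hsv, xi_v t p hlast]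
        have b2 := (hD3 (j + 1) hlast).1
        have a2 := act_mob (hj1 P.v (j + 1)).1 b2
        have e : step false (p.1 (T.sg (T.sg (T.rho^[j] P.v)))) =
            (Portal.turns (T := T) p.1 P.v j)⁻¹ * Portal.turns (T := T) p.1 P.v (j + 1) := by
          rw [turns_succ]
          group
        rw [e]
        exact ⟨_, mul_pos b1 (inv_pos.2 b2), act_mul a1i a2⟩
      · have hj' : j + 1 = Function.minimalPeriod T.rho P.v := by omega
        have hru : T.rho^[j + 1] P.v = P.v := by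
          rw [hj']
          exact Function.isPeriodicPt_minimalPeriod _ _
        have hs : T.sg (T.sg (T.rho^[j] P.v)) = T.io P.v := by
          rw [← io_rho, ← Function.iterate_succ_apply' T.rho]
          rw [hru]
        rw [hr5 _ hs, hru, xi_P_v]
        have e : step false (p.1 (T.sg (T.sg (T.rho^[j] P.v)))) * (t.B p)⁻¹ =
            (Portal.turns (T := T) p.1 P.v j)⁻¹ *
              (Portal.rot (T := T) p.1 P.v * (t.B p)⁻¹) := by
          have e1 : Portal.rot (T := T) p.1 P.v = Portal.turns (T := T) p.1 P.v (j + 1) := by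
            rw [hj']
            rfl
          rw [e1, turns_succ]
          group
        rw [e]
        exact ⟨_, mul_pos b1 hκ0, act_mul a1i aV⟩
    · have hu' : ∀ j, T.rho^[j] (T.rho d) ≠ P.u := fun j => by
        rw [← Function.iterate_succ_apply]
        exact hu _
      have hv' : ∀ j, T.rho^[j] (T.rho d) ≠ P.v := fun j => by
        rw [← Function.iterate_succ_apply]
        exact hv _
      rw [hr3 d (hspec _ (hu' 0)) (hspec _ (hv' 0)), xi_0 t p hu hv, xi_0 t p hu' hv']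
      have h1 := hj1 d 1
      have e : Portal.turns (T := T) p.1 d 1 = step false (p.1 (T.sg (T.sg d))) := by
        rw [turns_succ', turns_zero, mul_one]
      rw [e] at h1
      refine ⟨_, h1.2.2.1, ?_, ?_⟩
      · rw [h1.1]; ring
      · ring
  refine ⟨hκ, hom, ?_, ?_, hrel, ?_⟩
  · rw [xi_P_u]; exact aM
  · rw [xi_P_u, xi_P_v]; exact aR
  · intro d hdu hdv
    have h3 : T.sg (T.sg (T.sg d)) = d := T.sg3 d
    obtain ⟨r, hr, a1, a2⟩ := hrel (T.sg d)
    rw [hr3 (T.sg d) (by rw [h3]; exact hdu) (by rw [h3]; exact hdv), h3] at a1 a2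
    have hrho : T.rho (T.sg d) = T.io d := by
      unfold Tri.rho
      rw [h3]
    rw [hrho] at a1 a2
    have s00 : (step false (p.1 d)).1 0 0 = exp (-(p.1 d) / 2) := by
      unfold step U Del
      rw [m00]
      simp
    have s01 : (step false (p.1 d)).1 0 1 = 0 := by
      unfold step U Del
      rw [m01]
      simp
    have s10 : (step false (p.1 d)).1 1 0 = exp (-(p.1 d) / 2) := by
      unfold step U Del
      rw [m10]
      simp
    have s11 : (step false (p.1 d)).1 1 1 = exp (p.1 d / 2) := by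
      unfold step U Del
      rw [m11]
      simp
    rw [s00, s01] at a1
    rw [s10, s11] at a2
    have e1 : exp (-(p.1 d)) = exp (-(p.1 d) / 2) * exp (-(p.1 d) / 2) := by
      rw [← exp_add]
      congr 1
      ring
    have e2 : exp (-(p.1 d) / 2) * exp (p.1 d / 2) = 1 := by
      rw [← exp_add]
      have : -(p.1 d) / 2 + p.1 d / 2 = 0 := by ring
      rw [this, exp_zero]
    rw [e1]
    have e3 : exp (-(p.1 d) / 2) * t.xi p (T.io d) = r * t.xi p (T.sg d) := by linarith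
    have e4 : r * (1 + t.xi p (T.sg d)) = exp (p.1 d / 2) := by linarith
    calc t.xi p (T.io d) * (exp (-(p.1 d) / 2) * exp (-(p.1 d) / 2)) * (1 + t.xi p (T.sg d))
        = exp (-(p.1 d) / 2) * (exp (-(p.1 d) / 2) * t.xi p (T.io d)) *
            (1 + t.xi p (T.sg d)) := by ring
      _ = exp (-(p.1 d) / 2) * (r * (1 + t.xi p (T.sg d))) * t.xi p (T.sg d) := by
          rw [e3]; ring
      _ = t.xi p (T.sg d) := by rw [e4, e2, one_mul]

end Run7.h559.DG
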