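import Pool.Agent.Run7.h559.DG.CeigP

/-!
Piece C_eig, part N: the case of nonpositive exponents, and the theorem.  Author: helper559.
-/

set_option autoImplicit false

open Real Matrix
open Run7.h568.DG

noncomputable section

namespace Run7.h559.DG

variable {D : Type} [Fintype D] [DecidableEq D] {T : Tri D}

theorem mob_of_act {g : SL} (h01 : g.1 0 1 = 0) {s s' ρ : ℝ} (h : Act g⁻¹ s s' ρ) (hρ : 0 < ρ) :
    g.1 0 0 + g.1 1 0 * s = ρ ∧ PTD.mob g s = s' := by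
  obtain ⟨a1, a2⟩ := h
  rw [i00, i01, h01] at a1
  rw [i10, i11] at a2
  have hd := det1 g
  rw [h01, zero_mul, sub_zero] at hd
  have e1 : g.1 0 0 + g.1 1 0 * s = ρ := by linarith
  refine ⟨e1, ?_⟩
  have h00 : g.1 0 0 ≠ 0 := by
    intro h
    rw [h, zero_mul] at hd
    exact zero_ne_one hd
  unfold PTD.mob
  rw [e1, div_eq_iff (mul_ne_zero h00 hρ.ne')]
  linear_combination (-g.1 0 0) * a1 - s * hd

/-- lower triangular matrices -/
theorem act_low {g : SL} (h01 : g.1 0 1 = 0) (h00 : 0 < g.1 0 0) (h11 : 0 < g.1 1 1)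
    (h10 : 0 ≤ g.1 1 0) {s : ℝ} (hs : s ≤ 0) :
    ∃ s' ρ, Act g s s' ρ ∧ 0 < ρ ∧ s' ≤ 0 ∧ (g.1 0 0 ≤ g.1 1 0 → -1 < s') := by
  have hρ : 0 < g.1 1 1 - g.1 1 0 * s := by
    have := mul_nonneg h10 (neg_nonneg.2 hs)
    linarith
  refine ⟨g.1 0 0 * s / (g.1 1 1 - g.1 1 0 * s), g.1 1 1 - g.1 1 0 * s, ⟨?_, by ring⟩, hρ, ?_, ?_⟩
  · rw [h01, mul_div_cancel₀ _ hρ.ne']
    ring
  · exact div_nonpos_of_nonpos_of_nonneg (mul_nonpos_of_nonneg_of_nonpos h00.le hs) hρ.le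
  · intro hle
    rw [lt_div_iff₀ hρ]
    have := mul_nonneg (sub_nonneg.2 hle) (neg_nonneg.2 hs)
    linarith

theorem turns_add (x : D → ℝ) (k : ℕ) (j : ℕ) : ∀ d : D, Portal.turns (T := T) x d (j + k) =
    Portal.turns (T := T) x d j * Portal.turns (T := T) x (T.rho^[j] d) k := by
  induction j with
  | zero =>
    intro d
    rw [turns_zero, one_mul, Nat.zero_add]
    rfl
  | succ j ih =>
    intro d
    rw [show j + 1 + k = (j + k) + 1 by omega, turns_succ', ih, turns_succ' x d j, mul_assoc,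
      Function.iterate_succ_apply]

theorem Po_pow {g : SL} (hg : Po g) (n : ℕ) : Po (g ^ n) := by
  induction n with
  | zero => rw [pow_zero]; exact Or.inl rfl
  | succ n ih => rw [pow_succ]; exact Po_mul ih hg

theorem Po_prod_inv (l : List SL) (h : ∀ g ∈ l, Po g⁻¹) : Po (l.prod)⁻¹ := by
  induction l with
  | nil =>
    left
    rw [List.prod_nil, inv_one]
  | cons a l ih =>
    rw [List.prod_cons, _root_.mul_inv_rev]
    exact Po_mul (ih fun g hg => h g (List.mem_cons_of_mem _ hg)) (h a List.mem_cons_self)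

variable {P : Portal T} (t : PTD P) (p : (D → ℝ) × ℝ)

theorem Po_B (hpos : C_pos) (hp : p ∈ P.Teich) (hm : ∀ w, t.m w ≤ 0) : Po (t.B p)⁻¹ := by
  refine Po_prod_inv _ fun g hg => ?_
  rw [List.mem_map] at hg
  obtain ⟨i, hi, rfl⟩ := hg
  have hi' : i < t.a := List.mem_range.1 hi
  have hnum : T.num t.c P.v = T.num t.c (T.io P.v) + t.a := t.hc.2.2
  have hkn : i < T.num t.c P.v := by omega
  obtain ⟨n, hn⟩ := Int.eq_ofNat_of_zero_le (neg_nonneg.2 (hm (P.v, i)))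
  have hn' : t.m (P.v, i) = -(n : ℤ) := by omega
  rw [hn', _root_.zpow_neg, inv_inv, zpow_natCast]
  have hS := (hpos T P t p hp P.v i hkn).2.2.2.2
  exact Po_pow (Or.inr ⟨hS 0 0, hS 0 1, hS 1 0, hS 1 1⟩) n

theorem step_false (x : ℝ) : (step false x).1 0 0 = exp (-x / 2) ∧ (step false x).1 0 1 = 0 ∧
    (step false x).1 1 0 = exp (-x / 2) ∧ (step false x).1 1 1 = exp (x / 2) := by
  unfold step
  refine ⟨?_, ?_, ?_, ?_⟩
  · rw [m00]; simp [U, Del]
  · rw [m01]; simp [U, Del]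
  · rw [m10]; simp [U, Del]
  · rw [m11]; simp [U, Del]

theorem turns_le (hJ : C_J) (hp : p ∈ P.Teich) (d : D) {k : ℕ} (hk : 0 < k) :
    (Portal.turns (T := T) p.1 d k).1 0 0 ≤ (Portal.turns (T := T) p.1 d k).1 1 0 := by
  obtain ⟨k, rfl⟩ : ∃ j, k = j + 1 := ⟨k - 1, by omega⟩
  obtain ⟨hj1, -⟩ := hJ T P p hp
  obtain ⟨a1, a2, a3, a4, -⟩ := hj1 (T.rho d) k
  rw [turns_succ', m00, m10]
  obtain ⟨e00, e01, e10, e11⟩ := step_false (p.1 (T.sg (T.sg d)))
  rw [e00, e01, e10, e11, zero_mul, add_zero]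
  have := mul_nonneg (exp_pos (p.1 (T.sg (T.sg d)) / 2)).le a4
  linarith

theorem act_turns (hJ : C_J) (hp : p ∈ P.Teich) (d : D) {k : ℕ} (hk : 0 < k) {s : ℝ}
    (hs : s ≤ 0) : ∃ s' ρ, Act (Portal.turns (T := T) p.1 d k) s s' ρ ∧ 0 < ρ ∧ s' ≤ 0 ∧
      -1 < s' := by
  obtain ⟨a1, a2, a3, a4, -⟩ := (hJ T P p hp).1 d k
  obtain ⟨s', ρ, h1, h2, h3, h4⟩ := act_low a1 a2 a3 a4 hs
  exact ⟨s', ρ, h1, h2, h3, h4 (turns_le p hJ hp d hk)⟩

theorem neg_case (hJ : C_J) (hpos : C_pos) (hp : p ∈ P.Teich)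
    (hm : ∀ w, t.m w ≤ 0) : Gd t p (fun s => s ≤ 0) := by
  have hK := Po_B t p hpos hp hm
  obtain ⟨hj1, hj2, hj3, hj4, -⟩ := hJ T P p hp
  have hl : 0 < T.cyc p.1 P.v := hp.2.1
  have r01 : (Portal.rot (T := T) p.1 P.v).1 0 1 = 0 := (hj1 _ _).1
  obtain ⟨r00, r11, r10⟩ := hj2 P.v
  have r00' : (Portal.rot (T := T) p.1 P.v).1 0 0 < 1 := by
    rw [r00, ← Real.exp_zero]
    exact Real.exp_lt_exp.2 (by linarith)
  have r00'' : 0 < (Portal.rot (T := T) p.1 P.v).1 0 0 := by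
    rw [r00]
    exact exp_pos _
  have r11' : 1 < (Portal.rot (T := T) p.1 P.v).1 1 1 := by
    rw [r11]
    apply Real.one_lt_exp_iff.2
    linarith
  have j00 : 0 < (P.J p).1 0 0 := exp_pos _
  have j11 : 0 < (P.J p).1 1 1 := exp_pos _
  have j01 : (P.J p).1 0 1 = 0 := rfl
  set Rv : SL := Portal.rot (T := T) p.1 P.v with hRv
  set Ru : SL := Portal.rot (T := T) p.1 P.u with hRu
  set N : SL := (t.B p)⁻¹ * Rv with hN
  have eM : t.Mp p = P.J p * (N⁻¹ * (P.J p)⁻¹) := by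
    have e1 : t.Mp p = (Ru * P.J p) * t.B p * (P.J p)⁻¹ := by
      unfold PTD.Mp
      rw [← hRu]
      group
    rw [e1, hj3, hN]
    group
  have main : 2 < tr N ∧ 0 ≤ N.1 0 1 ∧ ((0 < N.1 0 1 * N.1 1 0) ∨ N.1 0 0 < 1) := by
    rcases hK with h | ⟨k00, k01, k10, k11⟩
    · rw [h, one_mul] at hN
      rw [hN]
      have hd := det1 Rv
      rw [r01, zero_mul, sub_zero] at hd
      refine ⟨?_, ?_, Or.inr r00'⟩
      · unfold tr
        nlinarith [sq_nonneg (Rv.1 0 0 - Rv.1 1 1), mul_pos (sub_pos.2 r00') (sub_pos.2 r11')]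
      · rw [r01]
    · have a00 : 0 < N.1 0 0 := by
        rw [hN, m00]
        exact add_pos (mul_pos k00 r00'') (mul_pos k01 r10)
      have a01 : 0 < N.1 0 1 := by
        rw [hN, m01, r01, mul_zero, zero_add]
        exact mul_pos k01 (by linarith)
      have a10 : 0 < N.1 1 0 := by
        rw [hN, m10]
        exact add_pos (mul_pos k10 r00'') (mul_pos k11 r10)
      have a11 : 0 < N.1 1 1 := by
        rw [hN, m11, r01, mul_zero, zero_add]
        exact mul_pos k11 (by linarith)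
      refine ⟨?_, a01.le, Or.inl (mul_pos a01 a10)⟩
      have hd := det1 N
      have h1 : 1 < N.1 0 0 * N.1 1 1 := by
        have := mul_pos a01 a10
        linarith
      unfold tr
      nlinarith [sq_nonneg (N.1 0 0 - N.1 1 1)]
  obtain ⟨htrN, h01, halt⟩ := main
  have dJ := det1 (P.J p)
  rw [j01, zero_mul, sub_zero] at dJ
  have eM00 : (t.Mp p).1 0 0 = N.1 1 1 + N.1 0 1 * ((P.J p).1 0 0 * (P.J p).1 1 0) := by
    rw [eM, m00, m00, m10, i00, i01, i10, i11, i00, i10, j01]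
    linear_combination N.1 1 1 * dJ
  have eM01 : (t.Mp p).1 0 1 = -(N.1 0 1 * ((P.J p).1 0 0 * (P.J p).1 0 0)) := by
    rw [eM, m01, m01, m11, i00, i01, i10, i11, i01, i11, j01]
    ring
  have eM11 : (t.Mp p).1 1 1 = N.1 0 0 - N.1 0 1 * ((P.J p).1 0 0 * (P.J p).1 1 0) := by
    rw [eM, m11, m01, m11, i00, i01, i10, i11, i01, i11, j01]
    linear_combination N.1 0 0 * dJ
  have htr' : tr (t.Mp p) = tr N := by
    unfold tr
    rw [eM00, eM11]
    ring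
  have htr : 2 < tr (t.Mp p) := by rw [htr']; exact htrN
  obtain ⟨hκ1, hκ2⟩ := kap_facts htr
  have hκ : 1 < t.kap p := hκ1
  have hκ0 : 0 < t.kap p := by linarith
  have hk : t.kap p + (t.kap p)⁻¹ = tr N := by rw [← htr']; exact hκ2
  have hκi : (t.kap p)⁻¹ < 1 := inv_lt_one_of_one_lt₀ hκ
  have hs := sep hκ hk
  have hk' : t.kap p + (t.kap p)⁻¹ = N.1 0 0 + N.1 1 1 := hk
  have hs' : (t.kap p - N.1 0 0) * (t.kap p - N.1 1 1) = N.1 0 1 * N.1 1 0 := by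
    have e1 : t.kap p - N.1 0 0 = N.1 1 1 - (t.kap p)⁻¹ := by linarith
    have e2 : t.kap p - N.1 1 1 = N.1 0 0 - (t.kap p)⁻¹ := by linarith
    rw [e1, e2, mul_comm]
    exact hs
  have hd0 : 0 < t.kap p - N.1 0 0 := by
    rcases halt with h | h
    · rw [← hs'] at h
      rcases pos_and_pos_or_neg_and_neg_of_mul_pos h with h' | h'
      · exact h'.1
      · exfalso
        linarith [h'.1, h'.2]
    · linarith
  set y : ℝ := N.1 0 1 / (t.kap p - N.1 0 0) with hy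
  have hy0 : 0 ≤ y := div_nonneg h01 hd0.le
  have ey : y * (t.kap p - N.1 0 0) = N.1 0 1 := div_mul_cancel₀ _ hd0.ne'
  have aN : Act N (-y) (-y) (t.kap p) := by
    constructor
    · linear_combination (-1 : ℝ) * ey
    · have : (t.kap p - N.1 0 0) * (N.1 1 0 * y + N.1 1 1 - t.kap p) = 0 := by
        linear_combination N.1 1 0 * ey - hs'
      rcases mul_eq_zero.1 this with h | h
      · exact absurd h hd0.ne'
      · linarith
  have hy1 : -y ≤ 0 := by linarith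
  have aNi := act_inv aN hκ0.ne'
  obtain ⟨s1, ρ1, a1, hρ1, hs1, -⟩ := act_low r01 r00'' (by linarith) r10.le hy1
  obtain ⟨s2, ρ2, a2, hρ2, hs2, -⟩ := act_low j01 j00 j11 hj4.le hy1
  have a2i := act_inv a2 hρ2.ne'
  have a1i := act_inv a1 hρ1.ne'
  have hne : 0 < (t.Mp p).1 0 0 - (t.kap p)⁻¹ := by
    rw [eM00]
    have := mul_nonneg h01 (mul_pos j00 hj4).le
    linarith
  have hxu : t.xiu p = s2 := by
    have a3 : Act (t.Mp p) s2 s2 (ρ2 * ((t.kap p)⁻¹ * ρ2⁻¹)) := by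
      rw [eM]
      exact act_mul a2 (act_mul aNi a2i)
    have e3 : ρ2 * ((t.kap p)⁻¹ * ρ2⁻¹) = (t.kap p)⁻¹ := by
      have := hρ2.ne'
      field_simp
    rw [e3] at a3
    unfold PTD.xiu
    rw [div_eq_iff hne.ne']
    linear_combination a3.1
  have rJ01 : (Ru * P.J p).1 0 1 = 0 := by
    rw [m01]
    have h1 : Ru.1 0 1 = 0 := (hj1 _ _).1
    rw [h1, j01]
    ring
  have aG : Act (Ru * P.J p)⁻¹ s2 s1 (ρ1 * ρ2⁻¹) := by
    have e : (Ru * P.J p)⁻¹ = Rv * (P.J p)⁻¹ := by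
      rw [hj3]
      group
    rw [e]
    exact act_mul a1 a2i
  obtain ⟨hG1, hG2⟩ := mob_of_act rJ01 aG (mul_pos hρ1 (inv_pos.2 hρ2))
  have hxv : t.xiv p = s1 := by
    unfold PTD.xiv
    rw [hxu]
    exact hG2
  obtain ⟨s3, ρ3, a3, hρ3, hs3, -⟩ := act_low j01 j00 j11 hj4.le hs1
  refine ⟨htr, hne.ne', ?_, fun j hj => ?_, fun j hj => ?_⟩
  · rw [hxu, hG1]
    exact mul_pos hρ1 (inv_pos.2 hρ2)
  · obtain ⟨s4, ρ4, a4, hρ4, hs4, hs4'⟩ := act_turns p hJ hp (T.rho^[j] P.u)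
      (k := Function.minimalPeriod T.rho P.u - j) (by omega) hs3
    have eR : Ru = Portal.turns (T := T) p.1 P.u j *
        Portal.turns (T := T) p.1 (T.rho^[j] P.u) (Function.minimalPeriod T.rho P.u - j) := by
      rw [← turns_add, hRu]
      unfold Portal.rot
      congr 1
      omega
    have e : (Portal.turns (T := T) p.1 P.u j)⁻¹ =
        Portal.turns (T := T) p.1 (T.rho^[j] P.u) (Function.minimalPeriod T.rho P.u - j) *
          (P.J p * (Rv * (P.J p)⁻¹)) := by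
      have e1 : P.J p * (Rv * (P.J p)⁻¹) = Ru⁻¹ := by
        have e2 : Ru⁻¹ = P.J p * (Ru * P.J p)⁻¹ := by group
        rw [e2, hj3]
        group
      rw [e1, eR]
      group
    have a5 := act_mul a4 (act_mul a3 (act_mul a1 a2i))
    rw [← e] at a5
    have hpos5 : 0 < ρ4 * (ρ3 * (ρ1 * ρ2⁻¹)) := by positivity
    obtain ⟨h5, h6⟩ := mob_of_act (hj1 _ _).1 a5 hpos5
    rw [hxu, h5, h6]
    exact ⟨hpos5, hs4', hs4⟩
  · obtain ⟨s4, ρ4, a4, hρ4, hs4, hs4'⟩ := act_turns p hJ hp (T.rho^[j] P.v)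
      (k := Function.minimalPeriod T.rho P.v - j) (by omega) hy1
    have eR : Rv = Portal.turns (T := T) p.1 P.v j *
        Portal.turns (T := T) p.1 (T.rho^[j] P.v) (Function.minimalPeriod T.rho P.v - j) := by
      rw [← turns_add, hRv]
      unfold Portal.rot
      congr 1
      omega
    have e : (Portal.turns (T := T) p.1 P.v j)⁻¹ =
        Portal.turns (T := T) p.1 (T.rho^[j] P.v) (Function.minimalPeriod T.rho P.v - j) *
          Rv⁻¹ := by
      rw [eR]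
      group
    have a5 := act_mul a4 a1i
    rw [← e] at a5
    have hpos5 : 0 < ρ4 * ρ1⁻¹ := by positivity
    obtain ⟨h5, h6⟩ := mob_of_act (hj1 _ _).1 a5 hpos5
    rw [hxv, h5, h6]
    exact ⟨hpos5, hs4', hs4⟩

/-- The piece `C_eig`. -/
theorem t_C_eig (hJ : C_J) (hR : C_R) (hpos : C_pos) (hmat : C_mat) (hcomb : C_comb) :
    C_eig := by
  intro D _ _ T P t p hp
  have hA : (∀ w, 0 ≤ t.m w) → ∀ d, 0 ≤ t.xi p d := fun hm d =>
    (xi_sgn (σ := fun s => 0 ≤ s) t p le_rfl (pos_case t p hJ hpos hmat hcomb hp hm) d).2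
  have hB : (∀ w, t.m w ≤ 0) → ∀ d, t.xi p d ≤ 0 := fun hm d =>
    (xi_sgn (σ := fun s => s ≤ 0) t p le_rfl (neg_case t p hJ hpos hp hm) d).2
  obtain ⟨σ, h, h0⟩ : ∃ σ : ℝ → Prop, Gd t p σ ∧ σ 0 := by
    rcases t.sgn with hm | hm
    · exact ⟨_, pos_case t p hJ hpos hmat hcomb hp hm, le_rfl⟩
    · exact ⟨_, neg_case t p hJ hpos hp hm, le_rfl⟩
  obtain ⟨b1, b2, b3, b4, b5, b6⟩ := assembly t p hJ hR hp h
  exact ⟨h.1, b1, h.2.1, xi_P_u t p, xi_P_v t p, fun d => (xi_sgn t p h0 h d).1, hA, hB, b2,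
    b3, b4, b5, b6, fun d hu hv => xi_0 t p hu hv, h.2.2.1, fun j hj => (h.2.2.2.1 j hj).1,
    fun j hj => (h.2.2.2.2 j hj).1⟩

end Run7.h559.DG
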