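import Pool.Agent.Run7.h559.DG.CeigA

/-!
Piece C_eig, part P: the case of nonnegative exponents.  Author: helper559.
-/

set_option autoImplicit false

open Real Matrix
open Run7.h568.DG

noncomputable section

namespace Run7.h559.DG

variable {D : Type} [Fintype D] [DecidableEq D] {T : Tri D}

theorem holC_append (P : Portal T) (p : (D → ℝ) × ℝ) (w w' : List Letter) : ∀ d : D,
    P.hol p (w ++ w') d = P.hol p w d * P.hol p w' (P.endp w d) := by
  induction w with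
  | nil =>
    intro d
    exact (one_mul _).symm
  | cons l w ih =>
    intro d
    show P.mat p d l * P.hol p (w ++ w') (P.nxt d l) = P.mat p d l * P.hol p w (P.nxt d l) *
      P.hol p w' (P.endp w (P.nxt d l))
    rw [ih, mul_assoc]

theorem validC_left (P : Portal T) (w w' : List Letter) : ∀ d : D,
    P.Valid (w ++ w') d → P.Valid w d := by
  induction w with
  | nil =>
    intro d _
    trivial
  | cons l w ih =>
    intro d h
    exact ⟨h.1, ih _ h.2⟩

theorem itinC_succ (P : Portal T) (c : D → ℕ) (a : ℕ) (n : ℕ) : ∀ w : D × ℕ,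
    P.itin c a (n + 1) w = P.itin c a n w ++ P.sletters c a ((P.snext c a)^[n] w) := by
  induction n with
  | zero =>
    intro w
    show P.sletters c a w ++ [] = [] ++ P.sletters c a w
    simp
  | succ n ih =>
    intro w
    show P.sletters c a w ++ P.itin c a (n + 1) (P.snext c a w) = _
    rw [ih]
    show _ = P.sletters c a w ++ P.itin c a n (P.snext c a w) ++ _
    rw [List.append_assoc, Function.iterate_succ_apply]

/-- nonnegative entries -/
def NN (g : SL) : Prop := 0 ≤ g.1 0 0 ∧ 0 ≤ g.1 0 1 ∧ 0 ≤ g.1 1 0 ∧ 0 ≤ g.1 1 1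

theorem NN_mul {g h : SL} (hg : NN g) (hh : NN h) : NN (g * h) := by
  obtain ⟨a1, a2, a3, a4⟩ := hg
  obtain ⟨b1, b2, b3, b4⟩ := hh
  refine ⟨?_, ?_, ?_, ?_⟩
  · rw [m00]; positivity
  · rw [m01]; positivity
  · rw [m10]; positivity
  · rw [m11]; positivity

theorem NN_hol (hmat : C_mat) (P : Portal T) (p : (D → ℝ) × ℝ) (hp : p ∈ P.Teich)
    (w : List Letter) : ∀ d : D, P.Valid w d → NN (P.hol p w d) := by
  have h := (hmat T P p hp).2 1 le_rfl
  induction w with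
  | nil =>
    intro d _
    have h1 : (1 : SL).1 0 0 = 1 := rfl
    have h2 : (1 : SL).1 0 1 = 0 := rfl
    have h3 : (1 : SL).1 1 0 = 0 := rfl
    have h4 : (1 : SL).1 1 1 = 1 := rfl
    show NN (1 : SL)
    unfold NN
    rw [h1, h2, h3, h4]
    norm_num
  | cons l w ih =>
    intro d hv
    exact NN_mul ⟨(h d l hv.1 0 0).1, (h d l hv.1 0 1).1, (h d l hv.1 1 0).1, (h d l hv.1 1 1).1⟩
      (ih _ hv.2)

/-- identity or positive entries -/
def Po (g : SL) : Prop := g = 1 ∨ (0 < g.1 0 0 ∧ 0 < g.1 0 1 ∧ 0 < g.1 1 0 ∧ 0 < g.1 1 1)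

theorem Po_mul {g h : SL} (hg : Po g) (hh : Po h) : Po (g * h) := by
  rcases hg with rfl | ⟨a1, a2, a3, a4⟩
  · rw [one_mul]; exact hh
  rcases hh with rfl | ⟨b1, b2, b3, b4⟩
  · rw [mul_one]; exact Or.inr ⟨a1, a2, a3, a4⟩
  refine Or.inr ⟨?_, ?_, ?_, ?_⟩
  · rw [m00]; positivity
  · rw [m01]; positivity
  · rw [m10]; positivity
  · rw [m11]; positivity

variable {P : Portal T} (t : PTD P) (p : (D → ℝ) × ℝ)

/-- the strands which cross `α`, seen from the other side -/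
theorem conj_str (hJ : C_J) (hpos : C_pos) (hmat : C_mat) (hcomb : C_comb) (hp : p ∈ P.Teich) {k : ℕ}
    (hk : k < t.a) : Po (P.J p * t.str p (P.v, k) * (P.J p)⁻¹) := by
  have hnum : T.num t.c P.v = T.num t.c (T.io P.v) + t.a := t.hc.2.2
  have hnumu : T.num t.c (T.io P.u) = T.num t.c P.u + t.a := t.hc.2.1
  have hkn : k < T.num t.c P.v := by omega
  obtain ⟨hval, -, -, -, hS⟩ := hpos T P t p hp P.v k hkn
  obtain ⟨n, hn⟩ : ∃ n, t.Q = n + 1 := ⟨t.Q - 1, by have := t.hQ; omega⟩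
  have hper := t.per P.v k hkn
  rw [hn, Function.iterate_succ_apply'] at hper
  set s' : D × ℕ := (P.snext t.c t.a)^[n] (P.v, k) with hs'
  have hcm := hcomb T P t.c t.a t.hc
  have hin : ∀ j, ((P.snext t.c t.a)^[j] (P.v, k)).2 <
      T.num t.c ((P.snext t.c t.a)^[j] (P.v, k)).1 := by
    intro j
    induction j with
    | zero => exact hkn
    | succ j ih =>
      rw [Function.iterate_succ_apply']
      exact (hcm _ ih).2.2.2.2.2
  have hs'n := hin n
  rw [← hs'] at hs'n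
  have ho := (hcm s' hs'n).1
  have hcc := (hcm _ ho).2.2.2.2.1
  have hsn : P.cross t.c t.a (Portal.out (T := T) t.c s') = (P.v, k) := hper
  rw [hsn] at hcc
  have hcr : P.cross t.c t.a (P.v, k) = (T.io P.u, T.num t.c (T.io P.u) - 1 - k) := by
    unfold Portal.cross
    rw [if_neg P.hne, if_pos rfl, if_pos hk]
  rw [hcr] at hcc
  have hcond : (Portal.out (T := T) t.c s').1 = T.io P.u ∧
      T.num t.c P.u ≤ (Portal.out (T := T) t.c s').2 := by
    rw [← hcc]
    refine ⟨rfl, ?_⟩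
    show T.num t.c P.u ≤ T.num t.c (T.io P.u) - 1 - k
    omega
  have hsl : P.sletters t.c t.a s' = [Letter.turn (Tri.sbit t.c s'), Letter.cf 0] := by
    unfold Portal.sletters
    rw [if_pos hcond]
  rw [hn, itinC_succ, ← hs', hsl] at hval
  set e := P.endp (P.itin t.c t.a n (P.v, k)) P.v with he
  set Y : SL := P.hol p (P.itin t.c t.a n (P.v, k)) P.v * P.mat p e (Letter.turn (Tri.sbit t.c s'))
    with hY
  have hstr : t.str p (P.v, k) = Y * P.J p := by
    unfold PTD.str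
    rw [hn, itinC_succ, ← hs', hsl, holC_append]
    show P.hol p (P.itin t.c t.a n (P.v, k)) P.v * (P.mat p e (Letter.turn (Tri.sbit t.c s')) *
      (Portal.rot (T := T) p.1 P.u ^ (0 : ℤ) * P.J p * 1)) = _
    rw [zpow_zero, one_mul, mul_one, hY, mul_assoc]
  have hYN : NN Y := by
    refine NN_mul (NN_hol hmat P p hp _ _ (validC_left P _ _ _ hval)) ?_
    have h := (hmat T P p hp).2 1 le_rfl e (Letter.turn (Tri.sbit t.c s')) trivial
    exact ⟨(h 0 0).1, (h 0 1).1, (h 1 0).1, (h 1 1).1⟩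
  rw [hstr]
  have hconj : P.J p * (Y * P.J p) * (P.J p)⁻¹ = P.J p * Y := by group
  rw [hconj]
  have j00 : 0 < (P.J p).1 0 0 := exp_pos _
  have j11 : 0 < (P.J p).1 1 1 := exp_pos _
  have j01 : (P.J p).1 0 1 = 0 := rfl
  obtain ⟨y00, y01, y10, y11⟩ := hYN
  have s01 := hS 0 1
  have s11 := hS 1 1
  rw [hstr, m01, j01, mul_zero, zero_add] at s01
  rw [hstr, m11, j01, mul_zero, zero_add] at s11
  have y01' : 0 < Y.1 0 1 := by
    by_contra hcon
    have : Y.1 0 1 * (P.J p).1 1 1 ≤ 0 := mul_nonpos_of_nonpos_of_nonneg (not_lt.1 hcon) j11.le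
    linarith
  have y11' : 0 < Y.1 1 1 := by
    by_contra hcon
    have : Y.1 1 1 * (P.J p).1 1 1 ≤ 0 := mul_nonpos_of_nonpos_of_nonneg (not_lt.1 hcon) j11.le
    linarith
  have y00' : 0 < Y.1 0 0 := by
    rcases lt_or_eq_of_le y00 with h | h
    · exact h
    · have hd := det1 Y
      rw [← h] at hd
      nlinarith
  have j10 : 0 < (P.J p).1 1 0 := (hJ T P p hp).2.2.2.1
  refine Or.inr ⟨?_, ?_, ?_, ?_⟩
  · rw [m00, j01, zero_mul, add_zero]
    exact mul_pos j00 y00'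
  · rw [m01, j01, zero_mul, add_zero]
    exact mul_pos j00 y01'
  · rw [m10]
    exact add_pos_of_pos_of_nonneg (mul_pos j10 y00') (mul_nonneg j11.le y10)
  · rw [m11]
    exact add_pos (mul_pos j10 y01') (mul_pos j11 y11')

/-- conjugates by `J` -/
def Zc (P : Portal T) (p : (D → ℝ) × ℝ) (g : SL) : Prop := Po (P.J p * g * (P.J p)⁻¹)

theorem Zc_one : Zc P p 1 := by
  left
  rw [mul_one, mul_inv_cancel]

theorem Zc_mul {g h : SL} (hg : Zc P p g) (hh : Zc P p h) : Zc P p (g * h) := by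
  have e : P.J p * (g * h) * (P.J p)⁻¹ =
      (P.J p * g * (P.J p)⁻¹) * (P.J p * h * (P.J p)⁻¹) := by group
  unfold Zc
  rw [e]
  exact Po_mul hg hh

theorem Zc_pow {g : SL} (hg : Zc P p g) (n : ℕ) : Zc P p (g ^ n) := by
  induction n with
  | zero => rw [pow_zero]; exact Zc_one p
  | succ n ih => rw [pow_succ]; exact Zc_mul p ih hg

theorem Zc_prod (l : List SL) (h : ∀ g ∈ l, Zc P p g) : Zc P p l.prod := by
  induction l with
  | nil => exact Zc_one p
  | cons a l ih =>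
    rw [List.prod_cons]
    exact Zc_mul p (h a List.mem_cons_self) (ih fun g hg => h g (List.mem_cons_of_mem _ hg))

theorem Zc_B (hJ : C_J) (hpos : C_pos) (hmat : C_mat) (hcomb : C_comb) (hp : p ∈ P.Teich)
    (hm : ∀ w, 0 ≤ t.m w) : Po (P.J p * t.B p * (P.J p)⁻¹) := by
  refine Zc_prod p _ fun g hg => ?_
  rw [List.mem_map] at hg
  obtain ⟨i, hi, rfl⟩ := hg
  obtain ⟨n, hn⟩ := Int.eq_ofNat_of_zero_le (hm (P.v, i))
  rw [hn, zpow_natCast]
  exact Zc_pow p (conj_str t p hJ hpos hmat hcomb hp (List.mem_range.1 hi)) n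

theorem mob_nonneg {g : SL} {s : ℝ} (h00 : 0 < g.1 0 0) (h10 : 0 ≤ g.1 1 0) (hs : 0 ≤ s) :
    0 < g.1 0 0 + g.1 1 0 * s ∧ 0 ≤ PTD.mob g s := by
  have h1 : 0 < g.1 0 0 + g.1 1 0 * s := add_pos_of_pos_of_nonneg h00 (mul_nonneg h10 hs)
  exact ⟨h1, div_nonneg hs (mul_nonneg h00.le h1.le)⟩

theorem pos_case (hJ : C_J) (hpos : C_pos) (hmat : C_mat) (hcomb : C_comb) (hp : p ∈ P.Teich)
    (hm : ∀ w, 0 ≤ t.m w) : Gd t p (fun s => 0 ≤ s) := by
  have hK := Zc_B t p hJ hpos hmat hcomb hp hm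
  obtain ⟨hj1, hj2, -, hj4, -⟩ := hJ T P p hp
  have hl : 0 < T.cyc p.1 P.v := hp.2.1
  have hcu : T.cyc p.1 P.u = - T.cyc p.1 P.v := hp.2.2.1
  have r01 : (Portal.rot (T := T) p.1 P.u).1 0 1 = 0 := (hj1 _ _).1
  obtain ⟨r00, r11, r10⟩ := hj2 P.u
  rw [hcu] at r00 r11
  have r00' : 1 < (Portal.rot (T := T) p.1 P.u).1 0 0 := by
    rw [r00]
    apply Real.one_lt_exp_iff.2
    linarith
  have r11' : 0 < (Portal.rot (T := T) p.1 P.u).1 1 1 := by
    rw [r11]
    exact exp_pos _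
  have hM : t.Mp p = Portal.rot (T := T) p.1 P.u * (P.J p * t.B p * (P.J p)⁻¹) := rfl
  have main : 2 < tr (t.Mp p) ∧ 0 ≤ (t.Mp p).1 0 1 ∧
      ((0 < (t.Mp p).1 0 1 * (t.Mp p).1 1 0) ∨
        ((t.Mp p).1 0 1 = 0 ∧ 1 < (t.Mp p).1 0 0)) := by
    rcases hK with h | ⟨k00, k01, k10, k11⟩
    · rw [h, mul_one] at hM
      rw [hM]
      have hd := det1 (Portal.rot (T := T) p.1 P.u)
      rw [r01, zero_mul, sub_zero] at hd
      refine ⟨?_, ?_, Or.inr ⟨r01, r00'⟩⟩
      · unfold tr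
        nlinarith [sq_nonneg ((Portal.rot (T := T) p.1 P.u).1 0 0 -
          (Portal.rot (T := T) p.1 P.u).1 1 1), mul_pos (sub_pos.2 r00') (sub_pos.2 r00')]
      · rw [r01]
    · have a00 : 0 < (t.Mp p).1 0 0 := by
        rw [hM, m00, r01, zero_mul, add_zero]
        exact mul_pos (by linarith) k00
      have a01 : 0 < (t.Mp p).1 0 1 := by
        rw [hM, m01, r01, zero_mul, add_zero]
        exact mul_pos (by linarith) k01
      have a10 : 0 < (t.Mp p).1 1 0 := by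
        rw [hM, m10]
        exact add_pos (mul_pos r10 k00) (mul_pos r11' k10)
      have a11 : 0 < (t.Mp p).1 1 1 := by
        rw [hM, m11]
        exact add_pos (mul_pos r10 k01) (mul_pos r11' k11)
      refine ⟨?_, a01.le, Or.inl (mul_pos a01 a10)⟩
      have hd := det1 (t.Mp p)
      have h1 : 1 < (t.Mp p).1 0 0 * (t.Mp p).1 1 1 := by
        have := mul_pos a01 a10
        linarith
      unfold tr
      nlinarith [sq_nonneg ((t.Mp p).1 0 0 - (t.Mp p).1 1 1)]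
  obtain ⟨htr, h01, halt⟩ := main
  obtain ⟨hκ1, hκ2⟩ := kap_facts htr
  have hκ : 1 < t.kap p := hκ1
  have hk : t.kap p + (t.kap p)⁻¹ = tr (t.Mp p) := hκ2
  have hs := sep hκ hk
  have hκi : (t.kap p)⁻¹ < 1 := inv_lt_one_of_one_lt₀ hκ
  have hsum : ((t.Mp p).1 0 0 - (t.kap p)⁻¹) + ((t.Mp p).1 1 1 - (t.kap p)⁻¹) =
      t.kap p - (t.kap p)⁻¹ := by
    unfold tr at hk
    linarith
  have hd0 : 0 < (t.Mp p).1 0 0 - (t.kap p)⁻¹ := by
    rcases halt with h | ⟨h1, h2⟩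
    · rw [← hs] at h
      rcases pos_and_pos_or_neg_and_neg_of_mul_pos h with h' | h'
      · exact h'.1
      · exfalso
        linarith [h'.1, h'.2]
    · linarith
  have hxu : 0 ≤ t.xiu p := div_nonneg h01 hd0.le
  have j00 : 0 < (P.J p).1 0 0 := exp_pos _
  have j01 : (P.J p).1 0 1 = 0 := rfl
  have g00 : 0 < (Portal.rot (T := T) p.1 P.u * P.J p).1 0 0 := by
    rw [m00, r01, zero_mul, add_zero]
    exact mul_pos (by linarith) j00
  have g10 : 0 ≤ (Portal.rot (T := T) p.1 P.u * P.J p).1 1 0 := by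
    rw [m10]
    exact (add_pos (mul_pos r10 j00) (mul_pos r11' hj4)).le
  obtain ⟨hD1, hxv⟩ := mob_nonneg g00 g10 hxu
  have hxv' : 0 ≤ t.xiv p := hxv
  refine ⟨htr, hd0.ne', hD1, fun j _ => ?_, fun j _ => ?_⟩
  · obtain ⟨-, b1, -, b2, -⟩ := hj1 P.u j
    obtain ⟨c1, c2⟩ := mob_nonneg b1 b2 hxu
    exact ⟨c1, by linarith, c2⟩
  · obtain ⟨-, b1, -, b2, -⟩ := hj1 P.v j
    obtain ⟨c1, c2⟩ := mob_nonneg b1 b2 hxv'
    exact ⟨c1, by linarith, c2⟩

end Run7.h559.DG
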